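import Pool.Agent.Lib_helper69.UH.Defs

/-! MP_8215f0_lc, module B: GNS construction for a real positive definite function on a countable
group, realised on `ℓ²(ℕ, ℂ)`. -/

set_option autoImplicit false
open Filter Topology
open scoped InnerProductSpace ComplexConjugate

namespace Pool.Agent.UHz86

open Pool.Agent.UHz

noncomputable section

variable {F : Type} [Group F]

/-- the scalar kernel attached to `φ` -/
def KK (φ : F → ℝ) : Matrix F F (ℂ →L[ℂ] ℂ) :=
  Matrix.of fun x y => ((φ (x⁻¹ * y) : ℝ) : ℂ) • ContinuousLinearMap.id ℂ ℂ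

theorem KK_apply (φ : F → ℝ) (x y : F) (v : ℂ) : KK φ x y v = ((φ (x⁻¹ * y) : ℝ) : ℂ) * v := by
  simp [KK]

theorem KK_herm (φ : F → ℝ) (hs : ∀ x, φ x⁻¹ = φ x) : (KK φ).IsHermitian := by
  ext x y
  have h1 : φ (y⁻¹ * x) = φ (x⁻¹ * y) := by
    rw [← hs (x⁻¹ * y)]; congr 1; group
  refine ext_inner_right ℂ fun w => ?_
  simp only [Matrix.conjTranspose_apply, ContinuousLinearMap.star_eq_adjoint,
    ContinuousLinearMap.adjoint_inner_left, KK_apply, h1]
  simp
  ring

theorem KK_posSemidef (φ : F → ℝ) (hs : ∀ x, φ x⁻¹ = φ x)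
    (hp : ∀ (s : Finset F) (c : F → ℝ), 0 ≤ ∑ x ∈ s, ∑ y ∈ s, c x * c y * φ (x⁻¹ * y)) :
    (KK φ).PosSemidef := by
  refine ((RKHS.posSemidef_tfae (K := KK φ)).out 0 2).mpr ?_
  refine ⟨KK_herm φ hs, fun vv => ?_⟩
  have h1 := hp vv.support (fun x => (vv x).re)
  have h2 := hp vv.support (fun x => (vv x).im)
  have e : RCLike.re (vv.sum fun x w ↦ vv.sum fun x' w' ↦ ⟪KK φ x' x w, w'⟫_ℂ) =
      (∑ x ∈ vv.support, ∑ y ∈ vv.support, (vv x).re * (vv y).re * φ (x⁻¹ * y)) +
      ∑ x ∈ vv.support, ∑ y ∈ vv.support, (vv x).im * (vv y).im * φ (x⁻¹ * y) := by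
    simp only [Finsupp.sum, map_sum, KK_apply, ← Finset.sum_add_distrib]
    refine Finset.sum_congr rfl fun x _ => Finset.sum_congr rfl fun y _ => ?_
    have h1 : φ (y⁻¹ * x) = φ (x⁻¹ * y) := by
      rw [← hs (x⁻¹ * y)]; congr 1; group
    rw [h1]
    simp [RCLike.inner_apply]
    ring
  rw [e]
  exact add_nonneg h1 h2

/-- a separable infinite-dimensional Hilbert space is `ℓ²`. -/
theorem exists_iso (E : Type) [NormedAddCommGroup E] [InnerProductSpace ℂ E] [CompleteSpace E]
    [TopologicalSpace.SeparableSpace E] (hE : ¬ FiniteDimensional ℂ E) : Nonempty (E ≃ₗᵢ[ℂ] HH) := by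
  obtain ⟨w, b, hb⟩ := exists_hilbertBasis ℂ E
  have ho := b.orthonormal
  have hd : ∀ x y : w, x ≠ y → 1 ≤ dist x y := by
    intro x y hxy
    have h1 : ‖(b x : E) - b y‖ ^ 2 = 2 := by
      have := @norm_sub_sq ℂ E _ _ _ (b x) (b y)
      rw [this, ho.1 x, ho.1 y, ho.2 hxy]
      norm_num
    have h2 : dist x y = ‖(b x : E) - b y‖ := by
      rw [Subtype.dist_eq, dist_eq_norm, hb]
    rw [h2]
    nlinarith [norm_nonneg ((b x : E) - b y)]
  have : DiscreteTopology w := DiscreteTopology.of_forall_le_dist one_pos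
    (fun x y hxy => hd x y hxy)
  have : SecondCountableTopology E := UniformSpace.secondCountable_of_separable E
  have hc : Countable w := TopologicalSpace.separableSpace_iff_countable.1 inferInstance
  have hi : Infinite w := by
    by_contra hfin
    rw [not_infinite_iff_finite] at hfin
    have := Fintype.ofFinite w
    exact hE (Module.Basis.finiteDimensional_of_finite b.toOrthonormalBasis.toBasis)
  obtain ⟨hden⟩ := nonempty_denumerable w
  let e : w ≃ ℕ := Denumerable.eqv w
  have hv : Orthonormal ℂ (fun n : ℕ => b (e.symm n)) := ho.comp _ e.symm.injective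
  have hr : Set.range (fun n : ℕ => b (e.symm n)) = Set.range b :=
    Function.Surjective.range_comp e.symm.surjective (fun x => b x)
  exact ⟨(HilbertBasis.mk hv (by rw [hr]; exact b.dense_span.ge)).repr⟩

theorem exists_H0 [Countable F] (φ : F → ℝ) (hs : ∀ x, φ x⁻¹ = φ x)
    (hp : ∀ (s : Finset F) (c : F → ℝ), 0 ≤ ∑ x ∈ s, ∑ y ∈ s, c x * c y * φ (x⁻¹ * y)) :
    ∃ (E : Type) (_ : NormedAddCommGroup E) (_ : InnerProductSpace ℂ E) (_ : CompleteSpace E)
      (η : F → E), (∀ x y, inner ℂ (η x) (η y) = ((φ (x⁻¹ * y) : ℝ) : ℂ)) ∧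
        (Submodule.span ℂ (Set.range η)).topologicalClosure = ⊤ ∧
        TopologicalSpace.SeparableSpace E := by
  have : Fact (KK φ).PosSemidef := ⟨KK_posSemidef φ hs hp⟩
  have hk : RKHS.kernel (RKHS.OfKernel (KK φ)) = KK φ := RKHS.OfKernel.kernel_ofKernel
  have hd := RKHS.kerFun_dense (RKHS.OfKernel (KK φ)) (𝕜 := ℂ) (X := F) (V := ℂ)
  have hsp : Submodule.span ℂ {RKHS.kerFun (RKHS.OfKernel (KK φ)) x v | (x : F) (v : ℂ)} =
      Submodule.span ℂ (Set.range fun x : F => RKHS.kerFun (RKHS.OfKernel (KK φ)) x (1 : ℂ)) := by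
    apply le_antisymm
    · rw [Submodule.span_le]
      rintro _ ⟨x, v, rfl⟩
      have : RKHS.kerFun (RKHS.OfKernel (KK φ)) x v =
          v • RKHS.kerFun (RKHS.OfKernel (KK φ)) x (1 : ℂ) := by
        rw [← map_smul]; simp
      rw [this]
      exact Submodule.smul_mem _ _ (Submodule.subset_span ⟨x, rfl⟩)
    · rw [Submodule.span_le]
      rintro _ ⟨x, rfl⟩
      exact Submodule.subset_span ⟨x, 1, rfl⟩
  rw [hsp] at hd
  refine ⟨RKHS.OfKernel (KK φ), inferInstance, inferInstance, inferInstance,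
    fun x => RKHS.kerFun (RKHS.OfKernel (KK φ)) x (1 : ℂ), ?_, hd, ?_⟩
  · intro x y
    have h := RKHS.kernel_inner (RKHS.OfKernel (KK φ)) y x (1 : ℂ) (1 : ℂ)
    rw [← h, hk, KK_apply]
    have h1 : φ (y⁻¹ * x) = φ (x⁻¹ * y) := by
      rw [← hs (x⁻¹ * y)]; congr 1; group
    rw [h1]
    simp
  · have h1 : TopologicalSpace.IsSeparable
        (Set.range fun x : F => RKHS.kerFun (RKHS.OfKernel (KK φ)) x (1 : ℂ)) :=
      (Set.countable_range _).isSeparable
    have h2 := (TopologicalSpace.IsSeparable.span (R := ℂ) h1).closure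
    rw [← Submodule.topologicalClosure_coe, hd] at h2
    exact TopologicalSpace.isSeparable_univ_iff.1 h2

theorem sepHH : TopologicalSpace.SeparableSpace HH := by
  let b : HilbertBasis ℕ ℂ HH := ⟨LinearIsometryEquiv.refl ℂ HH⟩
  have h1 : TopologicalSpace.IsSeparable (Set.range b) := (Set.countable_range _).isSeparable
  have h2 := (TopologicalSpace.IsSeparable.span (R := ℂ) h1).closure
  rw [← Submodule.topologicalClosure_coe, b.dense_span] at h2
  exact TopologicalSpace.isSeparable_univ_iff.1 h2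

theorem infHH : ¬ FiniteDimensional ℂ HH := by
  intro hfd
  let b : HilbertBasis ℕ ℂ HH := ⟨LinearIsometryEquiv.refl ℂ HH⟩
  have h := b.orthonormal.linearIndependent
  have := h.finite
  exact not_finite ℕ

theorem norm_lc_eq {F : Type} {E : Type} [NormedAddCommGroup E] [InnerProductSpace ℂ E] (η η' : F → E)
    (h : ∀ x y, inner ℂ (η x) (η y) = inner ℂ (η' x) (η' y)) (p : F →₀ ℂ) :
    ‖Finsupp.linearCombination ℂ η p‖ = ‖Finsupp.linearCombination ℂ η' p‖ := by
  rw [@norm_eq_sqrt_re_inner ℂ, @norm_eq_sqrt_re_inner ℂ]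
  simp only [Finsupp.linearCombination_apply, Finsupp.sum_inner, Finsupp.inner_sum,
    inner_smul_left, inner_smul_right, h]

/-- GNS for a real positive definite function on a countable group, realised on `ℓ²`. -/
theorem gns [Countable F] (φ : F → ℝ) (h1 : φ 1 = 1)
    (hs : ∀ x, φ x⁻¹ = φ x)
    (hp : ∀ (s : Finset F) (c : F → ℝ), 0 ≤ ∑ x ∈ s, ∑ y ∈ s, c x * c y * φ (x⁻¹ * y)) :
    ∃ (ρ : F →* UU) (ξ : F → HH), (∀ w x, ρ w (ξ x) = ξ (w * x)) ∧
      (∀ x y, inner ℂ (ξ x) (ξ y) = ((φ (x⁻¹ * y) : ℝ) : ℂ)) ∧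
      (Submodule.span ℂ (Set.range ξ ∪ {v | ∀ w, ρ w v = v})).topologicalClosure = ⊤ := by
  obtain ⟨E, _, _, _, η, hη, hden, hsep⟩ := exists_H0 φ hs hp
  have hinf : ¬ FiniteDimensional ℂ (WithLp 2 (E × HH)) := by
    intro hfd
    have h2 : FiniteDimensional ℂ (E × HH) :=
      LinearEquiv.finiteDimensional (WithLp.linearEquiv 2 ℂ (E × HH))
    exact infHH (FiniteDimensional.of_injective (LinearMap.inr ℂ E HH) LinearMap.inr_injective)
  have := sepHH
  have hsep2 : TopologicalSpace.SeparableSpace (WithLp 2 (E × HH)) :=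
    (WithLp.homeomorphProd 2 E HH).symm.surjective.denseRange.separableSpace
      (WithLp.homeomorphProd 2 E HH).symm.continuous
  obtain ⟨Φ⟩ := exists_iso (WithLp 2 (E × HH)) hinf
  let T : (F →₀ ℂ) →ₗ[ℂ] E := Finsupp.linearCombination ℂ η
  have hTd : DenseRange T := by
    have h3 : Set.range T = (Submodule.span ℂ (Set.range η) : Set E) := by
      rw [← Finsupp.range_linearCombination, LinearMap.coe_range]
    rw [DenseRange, h3, ← Submodule.dense_iff_topologicalClosure_eq_top] at *
    exact hden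
  let e : ((F →₀ ℂ) × HH) →ₗ[ℂ] HH :=
    Φ.toLinearEquiv.toLinearMap ∘ₗ (WithLp.linearEquiv 2 ℂ (E × HH)).symm.toLinearMap ∘ₗ
      (LinearMap.prodMap T LinearMap.id)
  have he : ∀ p v, e (p, v) = Φ (WithLp.toLp 2 (T p, v)) := fun p v => rfl
  have hed : DenseRange e := by
    have h3 : DenseRange (Prod.map T (id : HH → HH)) := hTd.prodMap denseRange_id
    have h4 : DenseRange (Φ ∘ (WithLp.homeomorphProd 2 E HH).symm) :=
      (Φ.surjective.comp (WithLp.homeomorphProd 2 E HH).symm.surjective).denseRange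
    have h5 : Continuous (Φ ∘ (WithLp.homeomorphProd 2 E HH).symm) :=
      Φ.continuous.comp (WithLp.homeomorphProd 2 E HH).symm.continuous
    exact h4.comp h3 h5
  let D : F → ((F →₀ ℂ) ≃ₗ[ℂ] (F →₀ ℂ)) := fun w => Finsupp.domLCongr (Equiv.mulLeft w)
  let f : F → (((F →₀ ℂ) × HH) ≃ₗ[ℂ] ((F →₀ ℂ) × HH)) := fun w =>
    LinearEquiv.prodCongr (D w) (LinearEquiv.refl ℂ HH)
  have hf : ∀ w p v, f w (p, v) = (D w p, v) := fun w p v => rfl
  have hDs : ∀ w x, D w (Finsupp.single x 1) = Finsupp.single (w * x) 1 := by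
    intro w x; simp [D]
  have hTs : ∀ x, T (Finsupp.single x 1) = η x := by
    intro x; simp [T]
  have hTD : ∀ w p, T (D w p) = Finsupp.linearCombination ℂ (fun x => η (w * x)) p := by
    intro w p
    have h6 : T ∘ₗ (D w).toLinearMap = Finsupp.linearCombination ℂ (fun x => η (w * x)) := by
      apply Finsupp.lhom_ext'
      intro x
      apply LinearMap.ext_ring
      simp [D, T]
    exact LinearMap.congr_fun h6 p
  have hTn : ∀ w p, ‖T (D w p)‖ = ‖T p‖ := by
    intro w p
    rw [hTD]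
    apply norm_lc_eq
    intro x y
    rw [hη, hη]
    congr 2
    group
  have hen : ∀ w z, ‖e (f w z)‖ = ‖e z‖ := by
    rintro w ⟨p, v⟩
    rw [hf, he, he, Φ.norm_map, Φ.norm_map, WithLp.prod_norm_eq_of_L2, WithLp.prod_norm_eq_of_L2]
    simp [hTn]
  have hRe : ∀ U V : UU, (∀ z, U (e z) = V (e z)) → U = V := by
    intro U V h
    apply LinearIsometryEquiv.ext
    intro z
    have := hed.equalizer U.continuous V.continuous (funext h)
    exact congrFun this z
  let R : F → UU := fun w => (f w).extendOfIsometry e e hed hed (hen w)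
  have hR : ∀ w z, R w (e z) = e (f w z) := fun w z =>
    LinearEquiv.extendOfIsometry_eq _ _ _ hed hed (hen w) z
  have hD1 : ∀ p, D 1 p = p := by
    intro p
    have h6 : (D 1).toLinearMap = LinearMap.id := by
      apply Finsupp.lhom_ext'
      intro x
      apply LinearMap.ext_ring
      simp [D]
    exact LinearMap.congr_fun h6 p
  have hDm : ∀ w w' p, D (w * w') p = D w (D w' p) := by
    intro w w' p
    have h6 : (D (w * w')).toLinearMap = (D w).toLinearMap ∘ₗ (D w').toLinearMap := by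
      apply Finsupp.lhom_ext'
      intro x
      apply LinearMap.ext_ring
      simp [D]
    exact LinearMap.congr_fun h6 p
  have hR1 : R 1 = 1 := by
    apply hRe
    rintro ⟨p, v⟩
    rw [hR, hf, hD1]
    rfl
  have hRm : ∀ w w', R (w * w') = R w * R w' := by
    intro w w'
    apply hRe
    rintro ⟨p, v⟩
    have h6 : (R w * R w') (e (p, v)) = R w (R w' (e (p, v))) := rfl
    rw [h6, hR, hf, hDm, hR, hf, hR, hf]
  let ρ : F →* UU := { toFun := R, map_one' := hR1, map_mul' := hRm }
  have hρ : ∀ w z, ρ w (e z) = e (f w z) := hR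
  refine ⟨ρ, fun x => e (Finsupp.single x 1, 0), ?_, ?_, ?_⟩
  · intro w x
    rw [hρ, hf, hDs]
  · intro x y
    beta_reduce
    rw [he, he, LinearIsometryEquiv.inner_map_map, WithLp.prod_inner_apply]
    simp [hTs, hη]
  · rw [eq_top_iff]
    have h7 : LinearMap.range e ≤ Submodule.span ℂ
        (Set.range (fun x => e (Finsupp.single x 1, 0)) ∪ {v | ∀ w, ρ w v = v}) := by
      rintro _ ⟨⟨p, v⟩, rfl⟩
      have h8 : e (p, v) = e (p, 0) + e (0, v) := by
        rw [← map_add]; simp
      rw [h8]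
      clear h8
      apply Submodule.add_mem
      · induction p using Finsupp.induction_linear with
        | zero =>
          have : e ((0 : F →₀ ℂ), (0 : HH)) = 0 := map_zero e
          rw [this]; exact Submodule.zero_mem _
        | add p q hp hq =>
          have : e (p + q, (0 : HH)) = e (p, 0) + e (q, 0) := by rw [← map_add]; simp
          rw [this]; exact Submodule.add_mem _ hp hq
        | single x a =>
          have : e (Finsupp.single x a, (0 : HH)) = a • e (Finsupp.single x 1, 0) := by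
            rw [← map_smul]; simp
          rw [this]
          exact Submodule.smul_mem _ _ (Submodule.subset_span (Or.inl ⟨x, rfl⟩))
      · apply Submodule.subset_span
        right
        intro w
        rw [hρ, hf, map_zero]
    have h9 := Submodule.topologicalClosure_mono h7
    have h10 : (LinearMap.range e).topologicalClosure = ⊤ := by
      rw [← Submodule.dense_iff_topologicalClosure_eq_top]
      exact hed
    rw [h10] at h9
    exact h9

end

end Pool.Agent.UHz86
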