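import Pool.Agent.Lib_helper69.UH.Defs

/-! MP_8215f0_lc, module D3: choice of the homomorphism `π : FF →* G` level by level. -/

set_option autoImplicit false
open Filter Topology

namespace Pool.Agent.UHz86

open Pool.Agent.UHz

/-- a dense sequence of a nonempty subset of a separable metrizable space -/
theorem exists_ds {G : Type} [TopologicalSpace G] [SecondCountableTopology G] (V : Set G)
    (hne : V.Nonempty) :
    ∃ d : ℕ → G, (∀ i, d i ∈ V) ∧ ∀ W : Set G, IsOpen W → ∀ v ∈ W, v ∈ V → ∃ i, d i ∈ W := by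
  have hn : Nonempty V := hne.to_subtype
  refine ⟨fun i => (TopologicalSpace.denseSeq V i : G), fun i => Subtype.coe_prop _, ?_⟩
  intro W hW v hvW hvV
  obtain ⟨i, hi⟩ := (TopologicalSpace.denseRange_denseSeq V).exists_mem_open
    (hW.preimage continuous_subtype_val) ⟨⟨v, hvV⟩, hvW⟩
  exact ⟨i, hi⟩

theorem exists_pi (G : Type) [TopologicalSpace G] [Group G] [IsTopologicalGroup G] [PolishSpace G]
    (L : G → ℝ) (h1 : L 1 = 0) (hc : Continuous L)
    (Q : List ℕ → Finset FF) (hQ : ∀ s, ∀ q ∈ Q s, q ∈ AA s.length) :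
    ∃ π : FF →* G,
      (∀ i s, ∀ q ∈ Q s, L ((π q)⁻¹ * π (FreeGroup.of (i, s)) * π q) < (1 / 4) ^ s.length) ∧
      (∀ s (W : Set G), IsOpen W → ∀ v ∈ W, (∀ q ∈ Q s, L ((π q)⁻¹ * v * π q) < (1 / 4) ^ s.length) →
        ∃ i, π (FreeGroup.of (i, s)) ∈ W) := by
  have key : ∀ (ψ : FF →* G) (s : List ℕ), ∃ d : ℕ → G,
      (∀ i, d i ∈ {v : G | ∀ q ∈ Q s, L ((ψ q)⁻¹ * v * ψ q) < (1 / 4) ^ s.length}) ∧
      ∀ W : Set G, IsOpen W → ∀ v ∈ W,
        v ∈ {v : G | ∀ q ∈ Q s, L ((ψ q)⁻¹ * v * ψ q) < (1 / 4) ^ s.length} → ∃ i, d i ∈ W := by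
    intro ψ s
    apply exists_ds
    refine ⟨1, fun q _ => ?_⟩
    have : (ψ q)⁻¹ * 1 * ψ q = 1 := by group
    rw [this, h1]
    positivity
  choose d hd1 hd2 using key
  let a : ℕ → LL → G := fun n => Nat.rec (fun _ => 1)
    (fun n f l => if l.2.length = n then d (FreeGroup.lift f) l.2 l.1 else f l) n
  have ha : ∀ n l, a (n + 1) l =
      if l.2.length = n then d (FreeGroup.lift (a n)) l.2 l.1 else a n l := fun n l => rfl
  have hagree : ∀ n (l : LL), l.2.length < n → a n l = a (l.2.length + 1) l := by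
    intro n
    induction n with
    | zero => intro l hl; omega
    | succ n ih =>
      intro l hl
      rcases Nat.lt_or_ge l.2.length n with h | h
      · rw [ha, if_neg (by omega)]
        exact ih l h
      · have : l.2.length = n := by omega
        rw [this]
  let π : FF →* G := FreeGroup.lift (fun l => a (l.2.length + 1) l)
  have hπ : ∀ l : LL, π (FreeGroup.of l) = a (l.2.length + 1) l := fun l => FreeGroup.lift_apply_of
  have hAA : ∀ n, ∀ x ∈ AA n, π x = FreeGroup.lift (a n) x := by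
    intro n x hx
    have h : Set.EqOn π (FreeGroup.lift (a n)) (AA n) := by
      apply MonoidHom.eqOn_closure
      rintro _ ⟨l, hl, rfl⟩
      rw [hπ, FreeGroup.lift_apply_of, hagree n l hl]
    exact h hx
  have hlet : ∀ i s, π (FreeGroup.of (i, s)) = d (FreeGroup.lift (a s.length)) s i := by
    intro i s
    rw [hπ, ha, if_pos rfl]
  refine ⟨π, ?_, ?_⟩
  · intro i s q hq
    rw [hlet, hAA _ q (hQ s q hq)]
    exact hd1 _ s i q hq
  · intro s W hW v hv hvQ
    obtain ⟨i, hi⟩ := hd2 (FreeGroup.lift (a s.length)) s W hW v hv (by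
      intro q hq
      have := hvQ q hq
      rwa [hAA _ q (hQ s q hq)] at this)
    exact ⟨i, by rw [hlet]; exact hi⟩

end Pool.Agent.UHz86
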